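import Mathlib
import Pool.Graph.R_seed8.R328.PB

/-!
# The variational choice of the contraction with a general lower bound

The proof is that of `Pool.Agent.R328.choice` (library); only the lower end `l` of the box is free.
-/

set_option autoImplicit false

open Complex Metric Finset Pool.Agent.Y947.DL Pool.Agent.R328

namespace Pool.Agent.H448.RU

variable {ι : Type*} [Fintype ι] {b : ι → ℂ} (hb : ∀ j, ‖b j‖ ≤ 1)

include hb

/-- the variational choice of the contraction -/
theorem choice' (hn : 0 < Fintype.card ι) {A : ℝ} (hA : 10 ≤ A) {l : ℝ} (hl0 : 0 < l)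
    (hl4 : l ≤ 1 / 4) :
    ∃ ρ : ι → ℝ, (∀ j, l ≤ ρ j ∧ 0 < ρ j ∧ ρ j ≤ 1 / 4) ∧
      (∀ j, Dd b ρ j ≤ (A + 1) * Fintype.card ι) ∧
      A * (Fintype.card ι * ∑ j, ρ j) ≤
        9 * En b ρ + 2 * (Fintype.card ι * (Fintype.card ι * l)) * A := by
  classical
  set n : ℝ := (Fintype.card ι : ℝ) with hndef
  have hn1 : 1 ≤ n := by rw [hndef]; exact_mod_cast hn
  have hn0 : 0 < n := by linarith
  set box : Set (ι → ℝ) := Set.Icc (fun _ => l) (fun _ => 1 / 4) with hbox
  have hne : box.Nonempty := ⟨fun _ => l, ⟨fun _ => le_refl _, fun _ => hl4⟩⟩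
  set J : (ι → ℝ) → ℝ := fun ρ => En b ρ + A * n * ∑ j, ρ j with hJ
  have hJc : ContinuousOn J box := by
    apply ContinuousOn.add (En_cont hb hl0 (by norm_num))
    apply Continuous.continuousOn
    fun_prop
  obtain ⟨ρ, hρbox, hmin⟩ := isCompact_Icc.exists_isMinOn hne hJc
  have hρ : ∀ j, 0 < ρ j ∧ ρ j ≤ 1 / 4 := fun j => ⟨lt_of_lt_of_le hl0 (hρbox.1 j), hρbox.2 j⟩
  have hρ1 : ∀ j, 0 < ρ j ∧ ρ j ≤ 1 := fun j => ⟨(hρ j).1, by linarith [(hρ j).2]⟩
  -- derivative of `J` in the direction of a coordinate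
  have hder : ∀ i (s : ℝ), HasDerivAt (fun t : ℝ => J (fun k => ρ k + t * (if k = i then s else 0)))
      (-(s / (1 - ρ i) * (Dd b ρ i - n)) + A * n * s) 0 := by
    intro i s
    have h1 := En_deriv hb hρ (fun k => if k = i then s else 0)
    have h2 : HasDerivAt (fun t : ℝ => A * n * ∑ k, (ρ k + t * (if k = i then s else 0))) (A * n * s) 0 := by
      have h3 : ∀ t : ℝ, A * n * ∑ k, (ρ k + t * (if k = i then s else 0)) = A * n * ∑ k, ρ k + (A * n * s) * t := by
        intro t
        rw [Finset.sum_add_distrib, ← Finset.mul_sum, Finset.sum_ite_eq' Finset.univ i (fun _ => s),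
          if_pos (Finset.mem_univ i)]
        ring
      simp only [h3]
      simpa using ((hasDerivAt_id (0:ℝ)).const_mul (A * n * s)).const_add (A * n * ∑ k, ρ k)
    have h4 := h1.add h2
    have e1 : -∑ k, (if k = i then s else 0) / (1 - ρ k) * (Dd b ρ k - (Fintype.card ι : ℝ)) =
        -(s / (1 - ρ i) * (Dd b ρ i - n)) := by
      rw [Finset.sum_eq_single i]
      · rw [if_pos rfl]
      · intro k _ hk
        rw [if_neg hk, zero_div, zero_mul]
      · intro h; exact absurd (Finset.mem_univ i) h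
    rw [e1] at h4
    exact h4
  have h0 : ∀ i (s : ℝ), J (fun k => ρ k + 0 * (if k = i then s else 0)) = J ρ := by
    intro i s
    congr 1
    ext k
    ring
  -- first order conditions
  have hup : ∀ i, ρ i < 1 / 4 → Dd b ρ i - n ≤ A * n * (1 - ρ i) := by
    intro i hi
    have h1 := deriv_nonneg (δ := 1 / 4 - ρ i) (by linarith) (hder i 1) (by
      intro t ht0 ht1
      rw [h0]
      apply hmin
      constructor
      · intro k
        have h2 := hρbox.1 k
        simp only at h2 ⊢
        split_ifs <;> linarith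
      · intro k
        have h2 := hρbox.2 k
        simp only at h2 ⊢
        split_ifs with hk
        · rw [hk]; linarith
        · linarith)
    have h2 : 0 < 1 - ρ i := by linarith
    have h3 : 1 / (1 - ρ i) * (Dd b ρ i - n) ≤ A * n := by linarith
    rw [one_div, ← div_eq_inv_mul, div_le_iff₀ h2] at h3
    exact h3
  have hdown : ∀ i, l < ρ i → A * n * (1 - ρ i) ≤ Dd b ρ i - n := by
    intro i hi
    have h1 := deriv_nonneg (δ := ρ i - l) (by linarith) (hder i (-1)) (by
      intro t ht0 ht1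
      rw [h0]
      apply hmin
      constructor
      · intro k
        have h2 := hρbox.1 k
        simp only at h2 ⊢
        split_ifs with hk
        · rw [hk]; linarith
        · linarith
      · intro k
        have h2 := hρbox.2 k
        simp only at h2 ⊢
        split_ifs <;> linarith)
    have h2 : 0 < 1 - ρ i := by linarith [(hρ i).2]
    have h3 : A * n ≤ 1 / (1 - ρ i) * (Dd b ρ i - n) := by
      have e : -1 / (1 - ρ i) * (Dd b ρ i - n) = -(1 / (1 - ρ i) * (Dd b ρ i - n)) := by ring
      rw [e] at h1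
      linarith
    rw [one_div, ← div_eq_inv_mul, le_div_iff₀ h2] at h3
    exact h3
  have hDn : ∀ i, 0 ≤ Dd b ρ i := fun i =>
    Finset.sum_nonneg fun j _ => PK_nonneg (norm_zz_lt hb hρ1 i j).le
  have hDA : ∀ i, Dd b ρ i ≤ (A + 1) * n := by
    intro i
    rcases lt_or_eq_of_le (hρ i).2 with h | h
    · have h1 := hup i h
      have h2 : A * n * (1 - ρ i) ≤ A * n := by
        have h3 : 0 ≤ A * n := by positivity
        nlinarith [(hρ i).1]
      linarith
    · have h1 : ∀ j ∈ (Finset.univ : Finset ι), PK (zz b ρ i j) ≤ 7 := by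
        intro j _
        have h2 := norm_zz hb hρ1 i j
        have h3 : ‖zz b ρ i j‖ ≤ 3 / 4 := by
          refine h2.trans ?_
          rw [h]
          have := hρ j
          nlinarith
        refine (PK_le h3 (by norm_num)).trans ?_
        norm_num
      have h2 := Finset.sum_le_sum h1
      rw [Finset.sum_const, Finset.card_univ, nsmul_eq_mul] at h2
      have h3 : Dd b ρ i ≤ n * 7 := h2
      nlinarith
  refine ⟨ρ, fun j => ⟨hρbox.1 j, hρ j⟩, hDA, ?_⟩
  -- the cost
  have hcost : ∀ i ∈ (Finset.univ : Finset ι), 3 / 4 * A * (n * ρ i) ≤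
      ρ i * (Dd b ρ i - n) + (3 / 4 * A * (n * l) + n * l) := by
    intro i _
    have hnl0 : 0 ≤ n * l := by positivity
    have hAnl0 : 0 ≤ 3 / 4 * A * (n * l) := by positivity
    rcases lt_or_eq_of_le (hρbox.1 i) with h | h
    · have h1 := hdown i h
      have h2 : ρ i * (A * n * (1 - ρ i)) ≤ ρ i * (Dd b ρ i - n) :=
        mul_le_mul_of_nonneg_left h1 (hρ i).1.le
      have h3 : 3 / 4 * A * (n * ρ i) ≤ ρ i * (A * n * (1 - ρ i)) := by
        have h4 : 0 ≤ A * n * ρ i := by
          have := (hρ i).1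
          positivity
        nlinarith [(hρ i).2]
      linarith
    · have h1 : l = ρ i := h
      rw [← h1]
      have h3 : l * (Dd b ρ i - n) = l * Dd b ρ i - n * l := by ring
      rw [h3]
      have h4 : 0 ≤ l * Dd b ρ i := mul_nonneg hl0.le (hDn i)
      linarith
  have hsum := Finset.sum_le_sum hcost
  rw [Finset.sum_add_distrib, Finset.sum_const, Finset.card_univ, nsmul_eq_mul, ← Finset.mul_sum,
    ← Finset.mul_sum, ← hndef] at hsum
  have hw := weighted hb hρ (1 / 4)
  rw [← hndef] at hw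
  have hSD : ∑ i, ρ i * Dd b ρ i ≤ (A + 1) * (n * ∑ i, ρ i) := by
    rw [Finset.mul_sum, Finset.mul_sum]
    apply Finset.sum_le_sum
    intro i _
    have := mul_le_mul_of_nonneg_left (hDA i) (hρ i).1.le
    linarith
  set S := n * ∑ i, ρ i with hS
  have hS0 : 0 ≤ S := mul_nonneg hn0.le (Finset.sum_nonneg fun i _ => (hρ i).1.le)
  set T := ∑ i, ρ i * (Dd b ρ i - n) with hT
  have h1 : T ≤ 4 * En b ρ + (A + 1) * S / 4 := by
    linarith
  have h2 : 3 / 4 * A * S ≤ 4 * En b ρ + (A + 1) * S / 4 + n * (3 / 4 * A * (n * l) + n * l) := by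
    linarith
  have hAS : 10 * S ≤ A * S := mul_le_mul_of_nonneg_right hA hS0
  have hnnl : 0 ≤ n * (n * l) := by positivity
  have hAn : 10 * (n * (n * l)) ≤ A * (n * (n * l)) := mul_le_mul_of_nonneg_right hA hnnl
  have h3 : 19 / 40 * (A * S) ≤ 4 * En b ρ + 17 / 20 * (A * (n * (n * l))) := by
    linarith
  have hE : 0 ≤ En b ρ := by
    have h5 := weighted hb hρ 0
    simpa using h5
  linarith

end Pool.Agent.H448.RU
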