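import Mathlib
import Pool.Graph.R_seed8.R328.PD

/-!
# A sampling inequality for harmonic functions at the vertices of a regular polygon
-/

set_option autoImplicit false

open Complex Metric Finset Pool.Agent.Y947.DL Pool.Agent.Y947.DP Pool.Agent.R328

namespace Pool.Agent.H448.RU

/-- the vertices of the regular polygon -/
noncomputable def vert (N j : ℕ) : ℝ := 2 * Real.pi * j / N

lemma ker_val {R : ℝ} (hR : 0 < R) {x ζ : ℂ} (hζ : ζ ∈ sphere (0:ℂ) |R|) :
    (Complex.re ∘ herglotzRieszKernel 0 x) ζ = (R ^ 2 - ‖x‖ ^ 2) / ‖ζ - x‖ ^ 2 := by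
  rw [← poissonKernel_eq_re_herglotzRieszKernel, poissonKernel_def]
  rw [mem_sphere_zero_iff_norm, abs_of_pos hR] at hζ
  rw [sub_zero, sub_zero, hζ]

lemma ker_diff {r0 r1 δ : ℝ} (h1 : 0 < r1) (h01 : r1 < r0) (hδ : 0 ≤ δ) {x x' ζ : ℂ} (hx : ‖x‖ = r1)
    (hx' : ‖x'‖ = r1) (h : ‖x - x'‖ ≤ δ * (r0 - r1)) (hζ : ζ ∈ sphere (0:ℂ) |r0|) :
    |(Complex.re ∘ herglotzRieszKernel 0 x) ζ - (Complex.re ∘ herglotzRieszKernel 0 x') ζ| ≤
      δ * (2 + δ) * (Complex.re ∘ herglotzRieszKernel 0 x) ζ := by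
  have h0 : 0 < r0 := h1.trans h01
  rw [ker_val h0 hζ, ker_val h0 hζ, hx, hx']
  rw [mem_sphere_zero_iff_norm, abs_of_pos h0] at hζ
  set a := ‖ζ - x‖ with ha
  set a' := ‖ζ - x'‖ with ha'
  have g1 : r0 - r1 ≤ a := by
    have := norm_sub_norm_le ζ x
    rw [hζ, hx] at this
    exact this
  have g2 : r0 - r1 ≤ a' := by
    have := norm_sub_norm_le ζ x'
    rw [hζ, hx'] at this
    exact this
  have ha0 : 0 < a := by linarith
  have ha0' : 0 < a' := by linarith
  have g3 : |a - a'| ≤ δ * a' := by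
    have h2 : |a - a'| ≤ ‖x - x'‖ := by
      have h3 := abs_norm_sub_norm_le (ζ - x) (ζ - x')
      have h4 : (ζ - x) - (ζ - x') = -(x - x') := by ring
      rw [h4, norm_neg] at h3
      exact h3
    refine h2.trans (h.trans ?_)
    exact mul_le_mul_of_nonneg_left g2 hδ
  have hc : 0 ≤ r0 ^ 2 - r1 ^ 2 := by nlinarith
  have e1 : (r0 ^ 2 - r1 ^ 2) / a ^ 2 - (r0 ^ 2 - r1 ^ 2) / a' ^ 2 =
      (r0 ^ 2 - r1 ^ 2) / a ^ 2 * ((a' ^ 2 - a ^ 2) / a' ^ 2) := by
    field_simp
  rw [e1, abs_mul, abs_of_nonneg (div_nonneg hc (by positivity)), mul_comm]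
  apply mul_le_mul_of_nonneg_right _ (div_nonneg hc (by positivity))
  rw [abs_div, abs_of_pos (by positivity : 0 < a' ^ 2), div_le_iff₀ (by positivity)]
  have e2 : a' ^ 2 - a ^ 2 = -(a - a') * (a' + a) := by ring
  rw [e2, abs_mul, abs_neg, abs_of_pos (by linarith : 0 < a' + a)]
  have g4 : a ≤ (1 + δ) * a' := by
    have := (abs_le.mp g3).2
    linarith
  calc |a - a'| * (a' + a) ≤ (δ * a') * (a' + (1 + δ) * a') := by
        apply mul_le_mul g3 (by linarith) (by linarith) (by positivity)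
    _ = δ * (2 + δ) * a' ^ 2 := by ring

lemma CS_abs {R : ℝ} {φ : ℂ → ℝ} (h : CS R φ) : CS R (fun z => |φ z|) := ContinuousOn.abs h

/-- comparison of the values of a Poisson integral -/
lemma PI_diff {r0 r1 δ : ℝ} (h1 : 0 < r1) (h01 : r1 < r0) (hδ : 0 ≤ δ) {φ : ℂ → ℝ} (hφ : CS r0 φ)
    {x x' : ℂ} (hx : ‖x‖ = r1) (hx' : ‖x'‖ = r1) (h : ‖x - x'‖ ≤ δ * (r0 - r1)) :
    |PI r0 φ x - PI r0 φ x'| ≤ δ * (2 + δ) * PI r0 (fun z => |φ z|) x := by
  have h0 : 0 < r0 := h1.trans h01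
  have hb : x ∈ ball (0:ℂ) r0 := by rw [mem_ball_zero_iff, hx]; exact h01
  have hb' : x' ∈ ball (0:ℂ) r0 := by rw [mem_ball_zero_iff, hx']; exact h01
  unfold PI
  rw [← Real.circleAverage_sub (hφ.ker hb).ci (hφ.ker hb').ci]
  refine Real.abs_circleAverage_le_circleAverage_abs.trans ?_
  have e : δ * (2 + δ) * Real.circleAverage ((Complex.re ∘ herglotzRieszKernel 0 x) • fun z => |φ z|) 0 r0 =
      Real.circleAverage ((δ * (2 + δ)) • ((Complex.re ∘ herglotzRieszKernel 0 x) • fun z => |φ z|)) 0 r0 := by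
    rw [Real.circleAverage_smul]; rfl
  rw [e]
  apply Real.circleAverage_mono
  · apply ContinuousOn.circleIntegrable'
    exact ((hφ.ker hb).sub (hφ.ker hb')).abs
  · apply ContinuousOn.circleIntegrable'
    exact continuousOn_const.smul ((CS_abs hφ).ker hb)
  · intro ζ hζ
    simp only [Pi.sub_apply, Pi.smul_apply, smul_eq_mul, Pi.abs_apply, Pi.mul_apply]
    rw [← sub_mul, abs_mul, ← mul_assoc]
    exact mul_le_mul_of_nonneg_right (ker_diff h1 h01 hδ hx hx' h hζ) (abs_nonneg _)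

/-- the mean of a Poisson integral over a smaller circle -/
lemma avg_PI {R r : ℝ} (hR0 : 0 < R) (hRr : R < r) {φ : ℂ → ℝ} (hφ : CS r φ) :
    CS R (PI r φ) ∧ Real.circleAverage (PI r φ) 0 R = Real.circleAverage φ 0 r := by
  have hr0 : 0 < r := hR0.trans hRr
  have hsub : ∀ ζ ∈ sphere (0:ℂ) |R|, ζ ∈ ball (0:ℂ) r := by
    intro ζ hζ
    rw [mem_sphere_zero_iff_norm, abs_of_pos hR0] at hζ
    rw [mem_ball_zero_iff, hζ]; exact hRr
  have hd : DiffContOnCl ℂ (CP r φ) (ball 0 |R|) := by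
    apply DifferentiableOn.diffContOnCl
    rw [abs_of_pos hR0, closure_ball _ hR0.ne']
    exact (CP_diff hφ).mono (closedBall_subset_ball hRr)
  have hdc : ContinuousOn (CP r φ) (sphere 0 |R|) := by
    apply hd.continuousOn.mono
    rw [abs_of_pos hR0, closure_ball _ hR0.ne']
    exact sphere_subset_closedBall
  have hcs : CS R (PI r φ) := by
    have h3 : ContinuousOn (fun z => (CP r φ z).re) (sphere 0 |R|) :=
      Complex.continuous_re.comp_continuousOn hdc
    apply h3.congr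
    intro ζ hζ
    exact (CP_re hφ (hsub ζ hζ)).symm
  refine ⟨hcs, ?_⟩
  have h1 := hd.circleAverage
  have h2 := Complex.reCLM.circleAverage_comp_comm hdc.circleIntegrable'
  rw [h1, Complex.reCLM_apply, CP_re hφ (mem_ball_self hr0), PI_zero hr0] at h2
  rw [← h2]
  apply Real.circleAverage_congr_sphere
  intro ζ hζ
  exact (CP_re hφ (hsub ζ hζ)).symm

/-- the sampling inequality -/
lemma sampling {r0 r1 δ : ℝ} (h1 : 0 < r1) (h01 : r1 < r0) (hδ : 0 ≤ δ) {φ : ℂ → ℝ} (hφ : CS r0 φ)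
    (hrep : ∀ x ∈ ball (0:ℂ) r0, PI r0 φ x = φ x) {N : ℕ} (hN : 0 < N)
    (hNδ : 2 * Real.pi * r1 / N ≤ δ * (r0 - r1)) :
    Real.circleAverage (fun z => |φ z|) 0 r1 ≤
      (∑ j ∈ range N, |φ (circleMap 0 r1 (vert N j))|) / N +
        δ * (2 + δ) * Real.circleAverage (fun z => |φ z|) 0 r0 := by
  have hN0 : (0:ℝ) < N := by exact_mod_cast hN
  have hpi := Real.pi_pos
  set V : ℂ → ℝ := PI r0 (fun z => |φ z|) with hV
  obtain ⟨hVc, hVa⟩ := avg_PI h1 h01 (CS_abs hφ)
  have hnorm : ∀ θ : ℝ, ‖circleMap 0 r1 θ‖ = r1 := by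
    intro θ
    rw [norm_circleMap_zero, abs_of_pos h1]
  have hmem : ∀ θ : ℝ, circleMap 0 r1 θ ∈ ball (0:ℂ) r0 := by
    intro θ
    rw [mem_ball_zero_iff, hnorm]; exact h01
  have hmems : ∀ θ : ℝ, circleMap 0 r1 θ ∈ sphere (0:ℂ) |r1| := by
    intro θ
    rw [mem_sphere_zero_iff_norm, hnorm, abs_of_pos h1]
  have hφc : Continuous (fun θ : ℝ => |φ (circleMap 0 r1 θ)|) := by
    obtain ⟨hc, -⟩ := avg_PI h1 h01 hφ
    have h3 : Continuous (fun θ : ℝ => PI r0 φ (circleMap 0 r1 θ)) :=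
      hc.comp_continuous (continuous_circleMap 0 r1) hmems
    have h4 : (fun θ : ℝ => φ (circleMap 0 r1 θ)) = fun θ : ℝ => PI r0 φ (circleMap 0 r1 θ) := by
      ext θ
      rw [hrep _ (hmem θ)]
    have h5 : Continuous (fun θ : ℝ => φ (circleMap 0 r1 θ)) := by rw [h4]; exact h3
    exact h5.abs
  have hVcc : Continuous (fun θ : ℝ => V (circleMap 0 r1 θ)) :=
    hVc.comp_continuous (continuous_circleMap 0 r1) hmems
  -- the arcs
  have harc : ∀ j ∈ range N, ∫ θ in vert N j..vert N (j + 1), |φ (circleMap 0 r1 θ)| ≤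
      (2 * Real.pi / N) * |φ (circleMap 0 r1 (vert N j))| +
        δ * (2 + δ) * ∫ θ in vert N j..vert N (j + 1), V (circleMap 0 r1 θ) := by
    intro j _
    have hlen : vert N (j + 1) - vert N j = 2 * Real.pi / N := by
      unfold vert
      push_cast
      ring
    have hle : vert N j ≤ vert N (j + 1) := by
      have : 0 < 2 * Real.pi / N := by positivity
      linarith
    have h3 : ∫ θ in vert N j..vert N (j + 1), |φ (circleMap 0 r1 θ)| ≤
        ∫ θ in vert N j..vert N (j + 1), (|φ (circleMap 0 r1 (vert N j))| +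
          δ * (2 + δ) * V (circleMap 0 r1 θ)) := by
      apply intervalIntegral.integral_mono_on hle (hφc.intervalIntegrable _ _)
      · exact (continuous_const.add (continuous_const.mul hVcc)).intervalIntegrable _ _
      · intro θ hθ
        have h4 : ‖circleMap 0 r1 θ - circleMap 0 r1 (vert N j)‖ ≤ δ * (r0 - r1) := by
          refine le_trans ?_ hNδ
          have h5 : ‖circleMap 0 r1 θ - circleMap 0 r1 (vert N j)‖ ≤ r1 * |θ - vert N j| := by
            have h6 := (lipschitzWith_circleMap 0 r1).dist_le_mul θ (vert N j)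
            rw [dist_eq_norm, Real.dist_eq, Real.coe_nnabs, abs_of_pos h1] at h6
            exact h6
          refine h5.trans ?_
          rw [abs_of_nonneg (by linarith [hθ.1])]
          have h8 : θ - vert N j ≤ 2 * Real.pi / N := by linarith [hθ.2]
          calc r1 * (θ - vert N j) ≤ r1 * (2 * Real.pi / N) := mul_le_mul_of_nonneg_left h8 h1.le
            _ = 2 * Real.pi * r1 / N := by ring
        have h5 := PI_diff h1 h01 hδ hφ (hnorm θ) (hnorm (vert N j)) h4
        rw [hrep _ (hmem θ), hrep _ (hmem (vert N j))] at h5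
        have h6 := abs_sub_abs_le_abs_sub (φ (circleMap 0 r1 θ)) (φ (circleMap 0 r1 (vert N j)))
        have h7 : V (circleMap 0 r1 θ) = PI r0 (fun z => |φ z|) (circleMap 0 r1 θ) := rfl
        rw [h7]
        linarith
    have hV2 : Continuous (fun θ : ℝ => δ * (2 + δ) * V (circleMap 0 r1 θ)) :=
      continuous_const.mul hVcc
    rw [intervalIntegral.integral_add (continuous_const.intervalIntegrable _ _)
      (hV2.intervalIntegrable _ _), intervalIntegral.integral_const,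
      intervalIntegral.integral_const_mul, hlen, smul_eq_mul] at h3
    exact h3
  have hsum := Finset.sum_le_sum harc
  have hadj : ∀ g : ℝ → ℝ, Continuous g → ∑ j ∈ range N, ∫ θ in vert N j..vert N (j + 1), g θ =
      ∫ θ in (0:ℝ)..2 * Real.pi, g θ := by
    intro g hg
    have h3 := intervalIntegral.sum_integral_adjacent_intervals (f := g) (μ := MeasureTheory.volume)
      (a := vert N) (n := N) (fun k _ => hg.intervalIntegrable _ _)
    rw [h3]
    have e0 : vert N 0 = 0 := by unfold vert; simp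
    have e1 : vert N N = 2 * Real.pi := by
      unfold vert
      field_simp
    rw [e0, e1]
  rw [hadj _ hφc, Finset.sum_add_distrib, ← Finset.mul_sum, ← Finset.mul_sum, hadj _ hVcc] at hsum
  have hA1 : Real.circleAverage (fun z => |φ z|) 0 r1 =
      (2 * Real.pi)⁻¹ * ∫ θ in (0:ℝ)..2 * Real.pi, |φ (circleMap 0 r1 θ)| := by
    unfold Real.circleAverage
    rw [smul_eq_mul]
  have hA2 : Real.circleAverage (fun z => |φ z|) 0 r0 =
      (2 * Real.pi)⁻¹ * ∫ θ in (0:ℝ)..2 * Real.pi, V (circleMap 0 r1 θ) := by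
    rw [← hVa]
    unfold Real.circleAverage
    rw [smul_eq_mul]
  rw [hA1, hA2]
  have h2pi : 0 < (2 * Real.pi)⁻¹ := by positivity
  calc (2 * Real.pi)⁻¹ * ∫ θ in (0:ℝ)..2 * Real.pi, |φ (circleMap 0 r1 θ)|
      ≤ (2 * Real.pi)⁻¹ * (2 * Real.pi / N * ∑ j ∈ range N, |φ (circleMap 0 r1 (vert N j))| +
        δ * (2 + δ) * ∫ θ in (0:ℝ)..2 * Real.pi, V (circleMap 0 r1 θ)) :=
        mul_le_mul_of_nonneg_left hsum h2pi.le
    _ = _ := by
      field_simp

end Pool.Agent.H448.RU
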