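import Mathlib
import Pool.Agent.H448.RU.Samp

/-!
# The mean of the absolute value of a potential and its values at the roots of unity
-/

set_option autoImplicit false

open Complex Metric Finset Polynomial Pool.Agent.Y947.DL Pool.Agent.Y947.DP Pool.Agent.R328

namespace Pool.Agent.H448.RU

variable {ι : Type*} [Fintype ι] {b : ι → ℂ} (hb : ∀ j, ‖b j‖ ≤ 1)

include hb

lemma avg_HH_zero {r : ℝ} (hr0 : 0 < r) (hr1 : r < 1) : Real.circleAverage (HH 0 b) 0 r = 0 := by
  have h1 := PI_HH hb hr0 hr1 (mem_ball_self hr0)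
  rw [PI_zero hr0] at h1
  have h4 : HH 0 b 0 = 0 := by unfold HH; simp
  rw [h4, neg_zero] at h1
  have h6 := Real.circleAverage_fun_smul (a := (-1 : ℝ)) (f := HH 0 b) (c := 0) (R := r)
  simp only [smul_eq_mul, neg_one_mul] at h6
  rw [h6] at h1
  linarith

/-- the positive part of the potential -/
lemma pos_CS {r : ℝ} (hr0 : 0 < r) (hr1 : r < 1) : CS r (fun z => max 0 (HH 0 b z)) :=
  ContinuousOn.sup continuousOn_const (HH_CS hb hr0 hr1)

lemma avg_abs_eq {r : ℝ} (hr0 : 0 < r) (hr1 : r < 1) :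
    Real.circleAverage (fun z => |HH 0 b z|) 0 r = 2 * Real.circleAverage (fun z => max 0 (HH 0 b z)) 0 r := by
  have h1 : (fun z => |HH 0 b z|) = fun z => 2 * max 0 (HH 0 b z) - HH 0 b z := by
    ext z
    rcases le_total 0 (HH 0 b z) with h | h
    · rw [abs_of_nonneg h, max_eq_right h]; ring
    · rw [abs_of_nonpos h, max_eq_left h]; ring
  have h2 : CS r (fun z => 2 * max 0 (HH 0 b z)) := continuousOn_const.mul (pos_CS hb hr0 hr1)
  rw [h1, Real.circleAverage_fun_sub h2.ci (HH_CS hb hr0 hr1).ci, avg_HH_zero hb hr0 hr1, sub_zero]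
  have h5 := Real.circleAverage_fun_smul (a := (2:ℝ)) (f := fun z => max 0 (HH 0 b z)) (c := 0) (R := r)
  simp only [smul_eq_mul] at h5
  exact h5

lemma avg_abs_eq' {r : ℝ} (hr0 : 0 < r) (hr1 : r < 1) :
    Real.circleAverage (fun z => |HH 0 b z|) 0 r = 2 * Real.circleAverage (gg b) 0 r := by
  have h1 : (fun z => |HH 0 b z|) = fun z => 2 * gg b z + HH 0 b z := by
    ext z
    unfold gg
    rcases le_total 0 (HH 0 b z) with h | h
    · rw [abs_of_nonneg h, max_eq_left (by linarith)]; ring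
    · rw [abs_of_nonpos h, max_eq_right (by linarith)]; ring
  have h2 : CS r (fun z => 2 * gg b z) := continuousOn_const.mul (gg_CS hb hr0 hr1)
  rw [h1, Real.circleAverage_fun_add h2.ci (HH_CS hb hr0 hr1).ci, avg_HH_zero hb hr0 hr1, add_zero]
  have h5 := Real.circleAverage_fun_smul (a := (2:ℝ)) (f := gg b) (c := 0) (R := r)
  simp only [smul_eq_mul] at h5
  exact h5

/-- one sided growth of the mean -/
lemma avg_growth {r0 r1 : ℝ} (h1 : 0 < r1) (h01 : r1 ≤ r0) (h0 : r0 < 1) :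
    Real.circleAverage (gg b) 0 r0 ≤ Real.circleAverage (gg b) 0 r1 + Fintype.card ι * (r0 - r1) := by
  have h00 : 0 < r0 := by linarith
  have i0 : IntervalIntegrable (fun θ : ℝ => gg b (circleMap 0 r0 θ)) MeasureTheory.volume 0
    (2 * Real.pi) := (gg_CS hb h00 h0).ci
  have i1 : IntervalIntegrable (fun θ : ℝ => gg b (circleMap 0 r1 θ)) MeasureTheory.volume 0
    (2 * Real.pi) := (gg_CS hb h1 (by linarith)).ci
  have hpi := Real.pi_pos
  have h2 : ∫ θ in (0:ℝ)..2 * Real.pi, gg b (circleMap 0 r0 θ) ≤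
      ∫ θ in (0:ℝ)..2 * Real.pi, (gg b (circleMap 0 r1 θ) + Fintype.card ι * (r0 - r1)) := by
    apply intervalIntegral.integral_mono_on (by positivity) i0
    · exact i1.add (continuous_const.intervalIntegrable _ _)
    · intro θ _
      have e0 : ∀ r : ℝ, circleMap 0 r θ = (r : ℂ) * Complex.exp (θ * I) := by
        intro r; rw [circleMap_zero]
      have h3 := HH_mono 0 hb h1.le h01 h0 (e := Complex.exp (θ * I))
        (by rw [Complex.norm_exp_ofReal_mul_I])
      rw [e0, e0]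
      unfold gg
      have h4 : 0 ≤ (Fintype.card ι : ℝ) * (r0 - r1) := mul_nonneg (Nat.cast_nonneg _) (by linarith)
      apply max_le
      · have := le_max_left 0 (-HH 0 b ((r1 : ℂ) * Complex.exp (θ * I)))
        linarith
      · have := le_max_right 0 (-HH 0 b ((r1 : ℂ) * Complex.exp (θ * I)))
        linarith
  rw [intervalIntegral.integral_add i1 (continuous_const.intervalIntegrable _ _),
    intervalIntegral.integral_const, smul_eq_mul, sub_zero] at h2
  unfold Real.circleAverage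
  rw [smul_eq_mul, smul_eq_mul]
  have h2pi : 0 < (2 * Real.pi)⁻¹ := by positivity
  calc (2 * Real.pi)⁻¹ * ∫ θ in (0:ℝ)..2 * Real.pi, gg b (circleMap 0 r0 θ)
      ≤ (2 * Real.pi)⁻¹ * ((∫ θ in (0:ℝ)..2 * Real.pi, gg b (circleMap 0 r1 θ)) +
        2 * Real.pi * (Fintype.card ι * (r0 - r1))) := mul_le_mul_of_nonneg_left h2 h2pi.le
    _ = _ := by field_simp

omit hb in
/-- the vertices are the roots of unity -/
lemma sum_vert {N : ℕ} (hN : 0 < N) (r : ℝ) (g : ℂ → ℝ) :
    ∑ j ∈ range N, g (circleMap 0 r (vert N j)) = ∑ ζ ∈ nthRootsFinset N (1:ℂ), g ((r : ℂ) * ζ) := by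
  classical
  have hprim := Complex.isPrimitiveRoot_exp N hN.ne'
  have hNc : (N : ℂ) ≠ 0 := by exact_mod_cast hN.ne'
  set w := Complex.exp (2 * Real.pi * I / N) with hw
  have e1 : ∀ j : ℕ, circleMap 0 r (vert N j) = (r : ℂ) * w ^ j := by
    intro j
    rw [circleMap_zero, hw, ← Complex.exp_nat_mul]
    congr 2
    unfold vert
    push_cast
    field_simp
  have hinj : Set.InjOn (fun j : ℕ => w ^ j) (range N) := by
    intro i hi j hj h
    rw [Finset.coe_range, Set.mem_Iio] at hi hj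
    exact hprim.pow_inj hi hj h
  have himg : (range N).image (fun j : ℕ => w ^ j) = nthRootsFinset N (1:ℂ) := by
    apply Finset.eq_of_subset_of_card_le
    · intro ζ hζ
      rw [Finset.mem_image] at hζ
      obtain ⟨j, _, rfl⟩ := hζ
      rw [mem_nthRootsFinset hN, ← pow_mul, mul_comm, pow_mul, hprim.pow_eq_one, one_pow]
    · rw [Finset.card_image_of_injOn hinj, card_grid hN, card_range]
  rw [← himg, Finset.sum_image hinj]
  refine Finset.sum_congr rfl fun j _ => ?_
  rw [e1]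

/-- the sum of the potential over the roots of unity on a smaller circle -/
lemma sum_neg_HH {N : ℕ} (hN : 0 < N) {r : ℝ} (hr0 : 0 < r) (hr1 : r < 1) :
    ∑ ζ ∈ nthRootsFinset N (1:ℂ), -HH 0 b ((r : ℂ) * ζ) ≤ Fintype.card ι * Real.log 2 := by
  have h1 : ∑ ζ ∈ nthRootsFinset N (1:ℂ), -HH 0 b ((r : ℂ) * ζ) =
      ∑ k, Real.log ‖1 - ((r : ℂ) * starRingEnd ℂ (b k)) ^ N‖ := by
    unfold HH
    simp only [zero_sub, neg_neg]
    rw [Finset.sum_comm]
    refine Finset.sum_congr rfl fun k _ => ?_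
    rw [← prod_grid hN, norm_prod, Real.log_prod]
    · refine Finset.sum_congr rfl fun ζ _ => ?_
      congr 2
      ring
    · intro ζ hζ
      have h2 : ‖ζ * ((r : ℂ) * starRingEnd ℂ (b k))‖ < 1 := by
        rw [norm_mul, norm_of_mem_grid hN hζ, one_mul, norm_mul, RCLike.norm_conj, Complex.norm_real,
          Real.norm_of_nonneg hr0.le]
        nlinarith [hb k, norm_nonneg (b k)]
      exact norm_ne_zero_iff.mpr (one_sub_ne h2)
  rw [h1]
  have h2 : ∀ k ∈ (Finset.univ : Finset ι), Real.log ‖1 - ((r : ℂ) * starRingEnd ℂ (b k)) ^ N‖ ≤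
      Real.log 2 := by
    intro k _
    have h3 : ‖(r : ℂ) * starRingEnd ℂ (b k)‖ < 1 := by
      rw [norm_mul, RCLike.norm_conj, Complex.norm_real, Real.norm_of_nonneg hr0.le]
      nlinarith [hb k, norm_nonneg (b k)]
    have h4 : ‖((r : ℂ) * starRingEnd ℂ (b k)) ^ N‖ < 1 := by
      rw [norm_pow]
      exact pow_lt_one₀ (norm_nonneg _) h3 hN.ne'
    apply Real.log_le_log (norm_pos_iff.mpr (one_sub_ne h4))
    refine (norm_sub_le _ _).trans ?_
    rw [norm_one]
    linarith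
  have h3 := Finset.sum_le_sum h2
  rw [Finset.sum_const, Finset.card_univ, nsmul_eq_mul] at h3
  exact h3

/-- the potential on a smaller circle is bounded by its boundary value -/
lemma HH_le_bdry {r : ℝ} (hr0 : 0 < r) (hr1 : r < 1) {ζ : ℂ} (hζ : ‖ζ‖ = 1)
    (hne : ∀ k, ζ * starRingEnd ℂ (b k) ≠ 1) :
    HH 0 b ((r : ℂ) * ζ) ≤ HH 0 b ζ + Fintype.card ι * (1 - r) := by
  unfold HH
  have h1 : ∀ k ∈ (Finset.univ : Finset ι), Real.log ‖1 - ζ * starRingEnd ℂ (b k)‖ ≤
      Real.log ‖1 - (r : ℂ) * ζ * starRingEnd ℂ (b k)‖ + (1 - r) := by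
    intro k _
    rw [mul_assoc]
    apply log_mono1 hr0.le hr1 _ (hne k)
    rw [norm_mul, hζ, one_mul, RCLike.norm_conj]
    exact hb k
  have h2 := Finset.sum_le_sum h1
  rw [Finset.sum_add_distrib, Finset.sum_const, Finset.card_univ, nsmul_eq_mul] at h2
  linarith

/-- the mean of the absolute value of the potential in terms of the boundary values at the roots
of unity -/
theorem mean_le {N : ℕ} (hN : 512 ≤ N) (hne : ∀ ζ ∈ nthRootsFinset N (1:ℂ), ∀ k,
    ζ * starRingEnd ℂ (b k) ≠ 1) :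
    Real.circleAverage (fun z => |HH 0 b z|) 0 (1 - 128 / N) ≤
      3 * ((∑ ζ ∈ nthRootsFinset N (1:ℂ), max 0 (HH 0 b ζ)) / N) + 386 * (Fintype.card ι / N) := by
  have hN1 : (512:ℝ) ≤ N := by exact_mod_cast hN
  have hN0 : (0:ℝ) < N := by linarith
  have hNpos : 0 < N := by omega
  set n : ℝ := (Fintype.card ι : ℝ) with hn
  have hn0 : 0 ≤ n := Nat.cast_nonneg _
  have hq : 128 / (N:ℝ) ≤ 1 / 4 := by
    rw [div_le_iff₀ hN0]; linarith
  have hq0 : 0 < 128 / (N:ℝ) := by positivity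
  set r1 : ℝ := 1 - 128 / N with hr1
  set r0 : ℝ := 1 - 64 / N with hr0
  have e64 : 64 / (N:ℝ) = 128 / N / 2 := by ring
  have h1 : 0 < r1 := by rw [hr1]; linarith
  have h01 : r1 < r0 := by rw [hr1, hr0, e64]; linarith
  have h0 : r0 < 1 := by rw [hr0, e64]; linarith
  have h00 : 0 < r0 := by linarith
  have hdiff : r0 - r1 = 64 / N := by rw [hr0, hr1]; ring
  -- sampling
  have hrep : ∀ x ∈ ball (0:ℂ) r0, PI r0 (HH 0 b) x = HH 0 b x := by
    intro x hx
    have h2 := PI_HH hb h00 h0 hx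
    have h3 := PI_mul_left (R := r0) (w := x) (φ := fun z => -HH 0 b z) (-1 : ℝ)
    have e : (fun z => (-1 : ℝ) * -HH 0 b z) = HH 0 b := by
      ext z; ring
    rw [e, h2] at h3
    rw [h3]; ring
  have hs := sampling h1 h01 (δ := 1 / 10) (by norm_num) (HH_CS hb h00 h0) hrep hNpos (by
    rw [hdiff]
    have hpi := Real.pi_lt_d2
    have hpi0 := Real.pi_pos
    have h2 : 2 * Real.pi * r1 / N ≤ 2 * Real.pi / N := by
      apply div_le_div_of_nonneg_right _ hN0.le
      nlinarith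
    refine h2.trans ?_
    rw [← mul_div_assoc]
    apply div_le_div_of_nonneg_right _ hN0.le
    linarith)
  rw [sum_vert hNpos r1 (fun z => |HH 0 b z|)] at hs
  have ha0 := avg_abs_eq' hb h00 h0
  have ha1 := avg_abs_eq' hb h1 (by linarith)
  have hg := avg_growth hb h1 h01.le h0
  rw [hdiff, ← hn] at hg
  -- the grid
  have hgrid : ∑ ζ ∈ nthRootsFinset N (1:ℂ), |HH 0 b ((r1 : ℂ) * ζ)| ≤
      2 * (∑ ζ ∈ nthRootsFinset N (1:ℂ), max 0 (HH 0 b ζ)) + 257 * n := by
    have h2 : ∀ ζ ∈ nthRootsFinset N (1:ℂ), |HH 0 b ((r1 : ℂ) * ζ)| ≤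
        2 * (max 0 (HH 0 b ζ) + n * (128 / N)) + -HH 0 b ((r1 : ℂ) * ζ) := by
      intro ζ hζ
      have h3 := HH_le_bdry hb h1 (by linarith) (norm_of_mem_grid hNpos hζ) (hne ζ hζ)
      rw [← hn] at h3
      have h4 : 1 - r1 = 128 / N := by rw [hr1]; ring
      rw [h4] at h3
      have h5 := le_max_right 0 (HH 0 b ζ)
      have h6 := le_max_left 0 (HH 0 b ζ)
      have h7 : 0 ≤ n * (128 / N) := by positivity
      rcases le_total 0 (HH 0 b ((r1 : ℂ) * ζ)) with h | h
      · rw [abs_of_nonneg h]; linarith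
      · rw [abs_of_nonpos h]; linarith
    have h3 := Finset.sum_le_sum h2
    rw [Finset.sum_add_distrib, ← Finset.mul_sum, Finset.sum_add_distrib, Finset.sum_const,
      card_grid hNpos, nsmul_eq_mul] at h3
    have h4 := sum_neg_HH hb hNpos h1 (by linarith)
    rw [← hn] at h4
    have h5 := Real.log_two_lt_d9
    have h6 : (N:ℝ) * (n * (128 / N)) = 128 * n := by field_simp
    rw [h6] at h3
    have h7 : n * Real.log 2 ≤ n * 1 := mul_le_mul_of_nonneg_left (by linarith) hn0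
    linarith
  have hgrid2 : (∑ ζ ∈ nthRootsFinset N (1:ℂ), |HH 0 b ((r1 : ℂ) * ζ)|) / N ≤
      2 * ((∑ ζ ∈ nthRootsFinset N (1:ℂ), max 0 (HH 0 b ζ)) / N) + 257 * (n / N) := by
    calc (∑ ζ ∈ nthRootsFinset N (1:ℂ), |HH 0 b ((r1 : ℂ) * ζ)|) / N
        ≤ (2 * (∑ ζ ∈ nthRootsFinset N (1:ℂ), max 0 (HH 0 b ζ)) + 257 * n) / N :=
          div_le_div_of_nonneg_right hgrid hN0.le
      _ = _ := by ring
  have hM0 : 0 ≤ Real.circleAverage (fun z => |HH 0 b z|) 0 r1 :=
    Real.circleAverage_nonneg_of_nonneg fun _ _ => abs_nonneg _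
  have hnN : 0 ≤ n / N := by positivity
  have e1 : n * (64 / N) = 64 * (n / N) := by ring
  rw [e1] at hg
  have hG0 : 0 ≤ (∑ ζ ∈ nthRootsFinset N (1:ℂ), max 0 (HH 0 b ζ)) / N :=
    div_nonneg (Finset.sum_nonneg fun _ _ => le_max_left _ _) hN0.le
  rw [ha0] at hs
  rw [ha1] at hs ⊢
  rw [ha1] at hM0
  norm_num at hs
  linarith

end Pool.Agent.H448.RU
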