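import Mathlib
import Pool.Graph.R_seed8.R328.PH
import Pool.Agent.H448.RU.Mean
import Pool.Agent.H448.RU.Choice

/-!
# The bound for a represented polynomial in terms of its values at the roots of unity
-/

set_option autoImplicit false

open Finset Polynomial Module Metric Pool.Agent.H388SL Pool.Agent.Y947.DL Pool.Agent.Y947.DM
  Pool.Agent.Y947.DP Pool.Agent.R328

namespace Pool.Agent.H448.RU

/-- the mean of `log⁺ |P|` over the `N`-th roots of unity -/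
noncomputable def KN (N : ℕ) (P : ℤ[X]) : ℝ :=
  (∑ ζ ∈ nthRootsFinset N (1:ℂ), Real.posLog ‖aeval ζ P‖) / N

lemma KN_nonneg (N : ℕ) (P : ℤ[X]) : 0 ≤ KN N P :=
  div_nonneg (Finset.sum_nonneg fun _ _ => Real.posLog_nonneg) (Nat.cast_nonneg _)

lemma arith {n R0 k G M1 P S E : ℝ} (hn : 1 ≤ n) (hR : 0 ≤ R0) (hk : 0 ≤ k)
    (hG : G ≤ 1 + k) (hM1 : M1 ≤ 3 * G + 386 * R0) (hP : P ≤ 42 * (n * M1))
    (hE : E ≤ P + S) (hcost : 20 * S ≤ 9 * E + 2 * (n * (128 * R0)) * 20) :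
    E ≤ 30000 * (n * (1 + k + R0)) ∧ S ≤ 14000 * (n * (1 + k + R0)) := by
  have hn0 : 0 ≤ n := by linarith
  have h1 : n * M1 ≤ n * (3 * (1 + k) + 386 * R0) :=
    mul_le_mul_of_nonneg_left (by linarith) hn0
  have h2 : 0 ≤ n * k := mul_nonneg hn0 hk
  have h3 : 0 ≤ n * R0 := mul_nonneg hn0 hR
  have e1 : n * (3 * (1 + k) + 386 * R0) = 3 * n + 3 * (n * k) + 386 * (n * R0) := by ring
  have e2 : 2 * (n * (128 * R0)) * 20 = 5120 * (n * R0) := by ring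
  have e3 : n * (1 + k + R0) = n + n * k + n * R0 := by ring
  rw [e1] at h1
  rw [e2] at hcost
  rw [e3]
  constructor <;> linarith

lemma arith2 {B n S E E' T l : ℝ} (hn : 1 ≤ n) (hB : 1 ≤ B) (hl : 0 ≤ l)
    (h1 : E ≤ 30000 * (n * B)) (h2 : S ≤ 14000 * (n * B))
    (hT : T ≤ 21 * S) (hE' : E' ≤ E + (14 + 8 * l) * T + S) :
    E' ≤ n * (2 * 10 ^ 9 * B * (1 + l)) := by
  have h4 : (14 + 8 * l) * T ≤ (14 + 8 * l) * (294000 * (n * B)) :=
    mul_le_mul_of_nonneg_left (by linarith) (by linarith)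
  have h5 : 0 ≤ n * B := mul_nonneg (by linarith) (by linarith)
  have h6 : 0 ≤ n * B * l := mul_nonneg h5 hl
  calc E' ≤ 30000 * (n * B) + (14 + 8 * l) * (294000 * (n * B)) + 14000 * (n * B) := by linarith
    _ ≤ 2 * 10 ^ 9 * (n * B) + 2 * 10 ^ 9 * (n * B * l) := by linarith
    _ = _ := by ring

section Rep

variable {p : ℤ[X]} {K : Type} [Field K] [NumberField K] {α : K}

/-- the product of the values at the roots of unity -/
lemma prod_values (h : Rep p K α) {N : ℕ} (hN : 0 < N) :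
    ∏ ζ ∈ nthRootsFinset N (1:ℂ), ‖aeval ζ p‖ = ∏ σ : K →ₐ[ℚ] ℂ, ‖σ (α ^ N - 1)‖ := by
  have h1 : ∀ ζ ∈ nthRootsFinset N (1:ℂ), ‖aeval ζ p‖ = ∏ σ : K →ₐ[ℚ] ℂ, ‖σ α - ζ * 1‖ := by
    intro ζ _
    rw [h.aeval_eq, norm_prod]
    refine Finset.prod_congr rfl fun σ _ => ?_
    rw [mul_one, norm_sub_rev]
  rw [Finset.prod_congr rfl h1, Finset.prod_comm]
  refine Finset.prod_congr rfl fun σ _ => ?_
  rw [← norm_prod, ← (Complex.isPrimitiveRoot_exp N hN.ne').pow_sub_pow_eq_prod_sub_mul _ _ hN,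
    one_pow, map_sub, map_pow, map_one]

lemma values_ne (h : Rep p K α) (hM : 1 < MM p) {N : ℕ} (hN : 0 < N) {ζ : ℂ}
    (hζ : ζ ∈ nthRootsFinset N (1:ℂ)) (σ : K →ₐ[ℚ] ℂ) : ζ ≠ σ α := by
  intro h0
  rw [mem_nthRootsFinset hN, h0, ← map_pow, ← map_one σ] at hζ
  exact h.not_root hM N hN (σ.injective hζ)

lemma sum_log_nonneg (h : Rep p K α) (hM : 1 < MM p) {N : ℕ} (hN : 0 < N) :
    0 ≤ ∑ ζ ∈ nthRootsFinset N (1:ℂ), Real.log ‖aeval ζ p‖ := by
  rw [← Real.log_prod, prod_values h hN]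
  · apply Real.log_nonneg
    apply one_le_prod_norm ((h.isInt.pow N).sub isIntegral_one)
    exact sub_ne_zero.mpr (h.not_root hM N hN)
  · intro ζ hζ
    rw [norm_ne_zero_iff, h.aeval_eq, Finset.prod_ne_zero_iff]
    intro σ _
    exact sub_ne_zero.mpr (values_ne h hM hN hζ σ)

lemma refl_ne (h : Rep p K α) (hM : 1 < MM p) {N : ℕ} (hN : 0 < N) {ζ : ℂ}
    (hζ : ζ ∈ nthRootsFinset N (1:ℂ)) (σ : K →ₐ[ℚ] ℂ) :
    ζ * starRingEnd ℂ (H388SL.refl (σ α)) ≠ 1 := by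
  intro h0
  have h1 := unit_factor (norm_of_mem_grid hN hζ) (σ α)
  rw [h0, sub_self, norm_zero, zero_mul] at h1
  exact values_ne h hM hN hζ σ (sub_eq_zero.mp (norm_eq_zero.mp h1.symm))

/-- the potential at the roots of unity -/
lemma HH_value (h : Rep p K α) (hM : 1 < MM p) {N : ℕ} (hN : 0 < N) {ζ : ℂ}
    (hζ : ζ ∈ nthRootsFinset N (1:ℂ)) :
    HH 0 (fun σ : K →ₐ[ℚ] ℂ => H388SL.refl (σ α)) ζ = lam α - Real.log ‖aeval ζ p‖ := by
  have h1 := norm_aeval_factor h (norm_of_mem_grid hN hζ)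
  have m1 : ∀ σ : K →ₐ[ℚ] ℂ, (max 1 ‖σ α‖ : ℝ) ≠ 0 := fun σ =>
    (lt_of_lt_of_le one_pos (le_max_left _ _)).ne'
  have m2 : ∀ σ : K →ₐ[ℚ] ℂ, ‖1 - ζ * starRingEnd ℂ (H388SL.refl (σ α))‖ ≠ 0 := fun σ =>
    norm_ne_zero_iff.mpr (sub_ne_zero.mpr (refl_ne h hM hN hζ σ).symm)
  have h2 : ‖Pr (fun σ : K →ₐ[ℚ] ℂ => H388SL.refl (σ α)) ζ‖ ≠ 0 := by
    rw [Pr, norm_prod]
    exact Finset.prod_ne_zero_iff.mpr fun σ _ => m2 σ
  rw [h1, Real.log_mul h2 (Finset.prod_ne_zero_iff.mpr fun σ _ => m1 σ),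
    Real.log_prod (fun σ _ => m1 σ), Pr, norm_prod, Real.log_prod (fun σ _ => m2 σ)]
  unfold HH lam
  ring

/-- the mean of the positive part of the potential over the roots of unity -/
lemma mean_pos_le (h : Rep p K α) (hM : 1 < MM p) {N : ℕ} (hN : 0 < N) :
    (∑ ζ ∈ nthRootsFinset N (1:ℂ),
      max 0 (HH 0 (fun σ : K →ₐ[ℚ] ℂ => H388SL.refl (σ α)) ζ)) / N ≤ lam α + KN N p := by
  have hN0 : (0:ℝ) < N := by exact_mod_cast hN
  have h1 : ∀ ζ ∈ nthRootsFinset N (1:ℂ),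
      max 0 (HH 0 (fun σ : K →ₐ[ℚ] ℂ => H388SL.refl (σ α)) ζ) ≤
        lam α + (Real.posLog ‖aeval ζ p‖ - Real.log ‖aeval ζ p‖) := by
    intro ζ hζ
    rw [HH_value h hM hN hζ]
    have h2 : 0 ≤ lam α := lam_nonneg α
    have h3 : Real.log ‖aeval ζ p‖ ≤ Real.posLog ‖aeval ζ p‖ := le_max_right _ _
    have h4 : 0 ≤ Real.posLog ‖aeval ζ p‖ := Real.posLog_nonneg
    apply max_le <;> linarith
  have h5 := Finset.sum_le_sum h1
  rw [Finset.sum_add_distrib, Finset.sum_const, card_grid hN, nsmul_eq_mul,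
    Finset.sum_sub_distrib] at h5
  have h6 := sum_log_nonneg h hM hN
  unfold KN
  rw [div_le_iff₀ hN0, add_mul, div_mul_cancel₀ _ hN0.ne']
  linarith

/-- the bound for a represented polynomial -/
lemma rep_ru {c : ℝ} (hc : FM c) (h : Rep p K α) (hc0 : |p.coeff 0| = 1) (hM : 1 < MM p)
    (hgood : ∀ q : ℕ, q.Prime → q ≠ 2 → Good α q) {N : ℕ} (hN : 512 ≤ N) :
    c / (1 + KN N p + p.natDegree / N) ^ 3 ≤ Real.log (MM p) := by
  have hn : 0 < finrank ℚ K := finrank_pos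
  have hn1 : (1:ℝ) ≤ finrank ℚ K := by exact_mod_cast hn
  have hn0 : (0:ℝ) < finrank ℚ K := by linarith
  have hNpos : 0 < N := by omega
  have hN1 : (512:ℝ) ≤ N := by exact_mod_cast hN
  have hN0 : (0:ℝ) < N := by linarith
  have hcard : Fintype.card (K →ₐ[ℚ] ℂ) = finrank ℚ K := AlgHom.card ℚ K ℂ
  set k := KN N p with hk
  have hk0 : 0 ≤ k := KN_nonneg N p
  rw [h.log_MM, ← h.fin]
  set R0 : ℝ := (finrank ℚ K : ℝ) / N with hR0
  have hR00 : 0 ≤ R0 := by rw [hR0]; positivity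
  have hB1 : 1 ≤ 1 + k + R0 := by linarith
  apply hc K α h.isInt (h.ne_zero hc0) (h.not_root hM) h.inj (h.prod_norm hc0) hgood
    (1 + k + R0) hB1
  intro hlam q hq0 hq1
  have hlam0 := lam_nonneg α
  set n : ℝ := (finrank ℚ K : ℝ) with hndef
  set b : (K →ₐ[ℚ] ℂ) → ℂ := fun σ => H388SL.refl (σ α) with hbdef
  have hb : ∀ σ, ‖b σ‖ ≤ 1 := fun σ => norm_refl_le _
  have hne : Nonempty (K →ₐ[ℚ] ℂ) := ⟨IsAlgClosed.lift⟩
  have hl0 : 0 < 128 / (N:ℝ) := by positivity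
  have hl4 : 128 / (N:ℝ) ≤ 1 / 4 := by rw [div_le_iff₀ hN0]; linarith
  obtain ⟨ρ, hρ, hD, hcost⟩ := choice' hb (by rw [hcard]; exact hn)
    (by norm_num : (10:ℝ) ≤ 20) hl0 hl4
  rw [hcard, ← hndef] at hD hcost
  have hρ' : ∀ j, 0 < ρ j ∧ ρ j ≤ 1 / 4 := fun j => (hρ j).2
  set S := n * ∑ j, ρ j with hS
  have hsum0 : 0 ≤ ∑ j, ρ j := Finset.sum_nonneg fun j _ => (hρ' j).1.le
  have hS0 : 0 ≤ S := mul_nonneg hn0.le hsum0
  set R : ℝ := 1 - 128 / N with hR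
  have hRpos : 0 < R := by linarith
  have hR1 : R < 1 := by linarith
  have hRρ : ∀ j, 1 - ρ j ≤ R := by
    intro j
    have h1 := (hρ j).1
    linarith
  set x : (K →ₐ[ℚ] ℂ) → ℂ := fun i => ((1 - ρ i : ℝ) : ℂ) * b i with hx
  have hx1 : ∀ i, ‖x i‖ < 1 := by
    intro i
    have h1 := hρ' i
    simp only [hx]
    rw [norm_mul, Complex.norm_real, Real.norm_of_nonneg (by linarith)]
    nlinarith [hb i, norm_nonneg (b i)]
  have hxz : ∀ i j, x i * starRingEnd ℂ (x j) = zz b ρ i j := by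
    intro i j
    simp only [hx, zz]
    rw [map_mul, Complex.conj_ofReal]
    push_cast
    ring
  have hDx : ∀ i, ∑ j, PK (x i * starRingEnd ℂ (x j)) ≤ (20 + 1) * n := by
    intro i
    simp only [hxz]
    exact hD i
  -- the mean
  have hmean := mean_le hb hN (fun ζ hζ σ => refl_ne h hM hNpos hζ σ)
  rw [← hR, hcard, ← hndef, ← hR0] at hmean
  have hG := mean_pos_le h hM hNpos
  rw [← hk] at hG
  have habs := avg_abs_eq hb hRpos hR1
  -- the sum of the potential at the points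
  have hs := PI_sum_le hx1 hDx hRpos (pos_CS hb hRpos hR1) (fun ζ _ => le_max_left _ _)
  have h4 : ∑ j, HH 0 b ((R : ℂ) * x j) ≤ ∑ j, PI R (fun z => max 0 (HH 0 b z)) ((R : ℂ) * x j) := by
    apply Finset.sum_le_sum
    intro j _
    have hw : (R : ℂ) * x j ∈ ball (0:ℂ) R := by
      rw [mem_ball_zero_iff, norm_mul, Complex.norm_real, Real.norm_of_nonneg hRpos.le]
      nlinarith [hx1 j]
    have h2 := PI_HH hb hRpos hR1 hw
    have h3 := PI_mul_left (R := R) (w := (R : ℂ) * x j) (φ := fun z => -HH 0 b z) (-1 : ℝ)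
    have e : (fun z => (-1 : ℝ) * -HH 0 b z) = HH 0 b := by
      ext z; ring
    rw [e, h2] at h3
    have h5 : HH 0 b ((R : ℂ) * x j) = PI R (HH 0 b) ((R : ℂ) * x j) := by
      rw [h3]; ring
    rw [h5]
    exact PI_mono (HH_CS hb hRpos hR1) (pos_CS hb hRpos hR1) hw (fun z _ => le_max_right _ _)
  have hP : ∑ j, HH 0 b ((R : ℂ) * x j) ≤
      42 * (n * Real.circleAverage (fun z => |HH 0 b z|) 0 R) := by
    refine h4.trans (hs.trans (le_of_eq ?_))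
    rw [habs]
    ring
  -- energy
  have hEn := En_le_HH hb hρ' hR1 hRρ
  rw [hcard, ← hndef, ← hS] at hEn
  have e2 : n * (128 / (N:ℝ)) = 128 * R0 := by rw [hR0]; ring
  rw [e2] at hcost
  obtain ⟨c8, c9⟩ := arith hn1 hR00 hk0 (hG.trans (by linarith)) hmean hP hEn hcost
  have hlogq : 0 ≤ Real.log (1 / q) := Real.log_nonneg (by rw [le_div_iff₀ hq0]; linarith only [hq1])
  refine ⟨fun σ => q * ρ σ, ?_, ?_, ?_⟩
  · intro σ
    refine ⟨mul_pos hq0 (hρ' σ).1, ?_⟩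
    have h1 := hρ' σ
    nlinarith only [h1.1, h1.2, hq0, hq1]
  · rw [← Finset.mul_sum]
    apply mul_le_mul_of_nonneg_left _ hq0.le
    have h1 : n * ∑ σ, ρ σ ≤ n * (63000000 * (1 + k + R0)) := by
      rw [← hS]
      have h3 : 0 ≤ n * (1 + k + R0) := by positivity
      linarith only [c9, h3]
    exact le_of_mul_le_mul_left h1 hn0
  · rw [EE_eq_En]
    have h1 := En_scale hb hρ' hq0 hq1
    rw [hcard, ← hndef, ← hS] at h1
    have hSD : ∑ i, ρ i * Dd b ρ i ≤ 21 * S := by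
      rw [hS, Finset.mul_sum, Finset.mul_sum]
      apply Finset.sum_le_sum
      intro i _
      have h5 := mul_le_mul_of_nonneg_left (hD i) (hρ' i).1.le
      linarith only [h5]
    exact arith2 hn1 hB1 hlogq c8 c9 hSD h1

end Rep

end Pool.Agent.H448.RU
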