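import Mathlib
import Pool.Agent.H448.CY.Main
import Pool.Agent.H448.RU.Rep

/-!
# Lehmer's problem and the values at the roots of unity of order dividing `N`
-/

set_option autoImplicit false

open Finset Polynomial Module Metric Pool.Agent.H388SL Pool.Agent.Y947.DL Pool.Agent.Y947.DM
  Pool.Agent.Y947.DP Pool.Agent.R328 Pool.Agent.H448.CY

namespace Pool.Agent.H448.RU

/-- sums over the roots of unity as sums over the powers of a primitive root -/
lemma sum_prim {N : ℕ} (hN : 0 < N) {w : ℂ} (hw : IsPrimitiveRoot w N) (F : ℂ → ℝ) :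
    ∑ ζ ∈ nthRootsFinset N (1:ℂ), F ζ = ∑ j ∈ range N, F (w ^ j) := by
  classical
  have hinj : Set.InjOn (fun j : ℕ => w ^ j) (range N) := by
    intro i hi j hj h
    rw [Finset.coe_range, Set.mem_Iio] at hi hj
    exact hw.pow_inj hi hj h
  have himg : (range N).image (fun j : ℕ => w ^ j) = nthRootsFinset N (1:ℂ) := by
    apply Finset.eq_of_subset_of_card_le
    · intro ζ hζ
      rw [Finset.mem_image] at hζ
      obtain ⟨j, _, rfl⟩ := hζ
      rw [mem_nthRootsFinset hN, ← pow_mul, mul_comm, pow_mul, hw.pow_eq_one, one_pow]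
    · rw [Finset.card_image_of_injOn hinj, card_grid hN, card_range]
  rw [← himg, Finset.sum_image hinj]

lemma sum_periodic {N : ℕ} (g : ℕ → ℝ) (hg : ∀ j, g (N + j) = g j) (q : ℕ) :
    ∑ j ∈ range (q * N), g j = q * ∑ j ∈ range N, g j := by
  have h1 : ∀ q j : ℕ, g (q * N + j) = g j := by
    intro q
    induction q with
    | zero => intro j; rw [zero_mul, zero_add]
    | succ q ih =>
      intro j
      rw [add_mul, one_mul, add_assoc, ih, hg]
  induction q with
  | zero => simp
  | succ q ih =>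
    rw [add_mul, one_mul, Finset.sum_range_add, ih, Finset.sum_congr rfl (fun j _ => h1 q j)]
    push_cast
    ring

lemma KN_expand_coprime {q N : ℕ} (hN : 0 < N) (hqN : q.Coprime N) (g : ℤ[X]) :
    KN N (expand ℤ q g) = KN N g := by
  have hw := Complex.isPrimitiveRoot_exp N hN.ne'
  have hw2 := hw.pow_of_coprime q hqN
  unfold KN
  rw [sum_prim hN hw, sum_prim hN hw2 (fun ζ => Real.posLog ‖aeval ζ g‖)]
  congr 1
  refine Finset.sum_congr rfl fun j _ => ?_
  rw [expand_aeval, ← pow_mul, ← pow_mul, mul_comm j q]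

lemma KN_expand_dvd {q N : ℕ} (hq : 0 < q) (hN : 0 < N) (g : ℤ[X]) :
    KN (q * N) (expand ℤ q g) = KN N g := by
  have hqN : 0 < q * N := Nat.mul_pos hq hN
  have hw := Complex.isPrimitiveRoot_exp (q * N) hqN.ne'
  have hw2 : IsPrimitiveRoot (Complex.exp (2 * Real.pi * Complex.I / (q * N : ℕ)) ^ q) N :=
    hw.pow hqN rfl
  unfold KN
  rw [sum_prim hqN hw, sum_prim hN hw2 (fun ζ => Real.posLog ‖aeval ζ g‖)]
  have h1 : ∀ j ∈ range (q * N),
      Real.posLog ‖aeval (Complex.exp (2 * Real.pi * Complex.I / (q * N : ℕ)) ^ j) (expand ℤ q g)‖ =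
      (fun j : ℕ => Real.posLog
        ‖aeval ((Complex.exp (2 * Real.pi * Complex.I / (q * N : ℕ)) ^ q) ^ j) g‖) j := by
    intro j _
    dsimp only
    rw [expand_aeval, ← pow_mul, ← pow_mul, mul_comm j q]
  rw [Finset.sum_congr rfl h1, sum_periodic]
  · have hq' : (q : ℝ) ≠ 0 := by exact_mod_cast hq.ne'
    push_cast
    rw [mul_div_mul_left _ _ hq']
  · intro j
    rw [pow_add, hw2.pow_eq_one, one_mul]

lemma KN_neg (N : ℕ) (P : ℤ[X]) : KN N (-P) = KN N P := by
  unfold KN
  simp only [map_neg, norm_neg]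

/-- trivial upper bound for the mean -/
lemma mp_le {f : ℤ[X]} (hf : f ≠ 0) : mp f ≤ f.natDegree * Real.log 2 + Real.log (MM f) := by
  obtain ⟨γ, h1, h2, _⟩ := exists_fam hf
  have hM := one_le_MM hf
  have hM0 : 0 < MM f := by linarith
  have h2n : (0:ℝ) < 2 ^ f.natDegree := by positivity
  have h3 : ∀ z : ℂ, ‖z‖ = 1 → Real.posLog ‖aeval z f‖ ≤
      f.natDegree * Real.log 2 + Real.log (MM f) := by
    intro z hz
    have h4 : ‖aeval z f‖ ≤ 2 ^ f.natDegree * MM f := by
      rw [h1, norm_GV_factor _ _ hz, ← h2]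
      apply mul_le_mul_of_nonneg_right _ hM0.le
      rw [Pr, norm_prod]
      calc ∏ k : Fin f.natDegree, ‖1 - z * starRingEnd ℂ (H388SL.refl (γ k))‖
          ≤ ∏ _k : Fin f.natDegree, (2:ℝ) := by
            apply Finset.prod_le_prod (fun _ _ => norm_nonneg _)
            intro k _
            refine (norm_sub_le _ _).trans ?_
            rw [norm_one, norm_mul, hz, one_mul, RCLike.norm_conj]
            linarith [norm_refl_le (γ k)]
        _ = 2 ^ f.natDegree := by rw [Finset.prod_const, Finset.card_univ, Fintype.card_fin]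
    have h5 := Real.posLog_le_posLog (norm_nonneg _) h4
    refine h5.trans (le_of_eq ?_)
    have h6 : 1 ≤ 2 ^ f.natDegree * MM f :=
      one_le_mul_of_one_le_of_one_le (one_le_pow₀ (by norm_num)) hM
    rw [Real.posLog_eq_log (by rw [abs_of_nonneg (by positivity)]; exact h6),
      Real.log_mul h2n.ne' hM0.ne', Real.log_pow]
  unfold mp
  apply Real.circleAverage_mono_on_of_le_circle
  · exact ContinuousOn.circleIntegrable' (posLog_cont f).continuousOn
  · intro z hz
    rw [mem_sphere_zero_iff_norm, abs_one] at hz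
    exact h3 z hz

/-- the case of a small number of roots of unity -/
lemma small_N : ∃ c : ℝ, 0 < c ∧ ∀ f : ℤ[X], Irreducible f → 1 < MM f → ∀ N : ℕ, 0 < N → N < 512 →
    c / (1 + f.natDegree / N) ^ 3 ≤ Real.log (MM f) := by
  obtain ⟨c1, hc1, hc⟩ := irr_case3
  have hlog2 : 0 < Real.log 2 := Real.log_pos (by norm_num)
  refine ⟨min (c1 / 512 ^ 3) (Real.log 2), lt_min (by positivity) hlog2, ?_⟩
  intro f hf hM N hN hN512
  have hN0 : (0:ℝ) < N := by exact_mod_cast hN
  have hN5 : (N:ℝ) ≤ 512 := by exact_mod_cast hN512.le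
  have hd0 : (0:ℝ) ≤ f.natDegree := Nat.cast_nonneg _
  set B : ℝ := 1 + f.natDegree / N with hB
  have hB1 : 1 ≤ B := by
    have : 0 ≤ (f.natDegree : ℝ) / N := by positivity
    linarith
  have hB3 : 1 ≤ B ^ 3 := one_le_pow₀ hB1
  by_cases hbig : 2 ≤ MM f
  · have h2 : Real.log 2 ≤ Real.log (MM f) := Real.log_le_log (by norm_num) hbig
    calc min (c1 / 512 ^ 3) (Real.log 2) / B ^ 3 ≤ min (c1 / 512 ^ 3) (Real.log 2) :=
          div_le_self (le_min (by positivity) hlog2.le) hB3
      _ ≤ Real.log 2 := min_le_right _ _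
      _ ≤ _ := h2
  push Not at hbig
  have h1 := hc f hf hM
  have hmp0 := mp_nonneg f
  have h2 := mp_le hf.ne_zero
  have h3 : Real.log (MM f) ≤ Real.log 2 := Real.log_le_log (by linarith) hbig.le
  have h4 := Real.log_two_lt_d9
  have h5 : (f.natDegree : ℝ) * Real.log 2 ≤ f.natDegree * 1 :=
    mul_le_mul_of_nonneg_left (by linarith) hd0
  have h6 : (f.natDegree : ℝ) ≤ 512 * (f.natDegree / N) := by
    rw [← mul_div_assoc, le_div_iff₀ hN0]
    nlinarith
  have h7 : 1 + mp f ≤ 512 * B := by
    rw [hB]; linarith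
  calc min (c1 / 512 ^ 3) (Real.log 2) / B ^ 3 ≤ (c1 / 512 ^ 3) / B ^ 3 :=
        div_le_div_of_nonneg_right (min_le_left _ _) (by positivity)
    _ = c1 / (512 * B) ^ 3 := by rw [div_div, mul_pow]
    _ ≤ c1 / (1 + mp f) ^ 3 := by
      apply div_le_div_of_nonneg_left hc1.le (by positivity)
      exact pow_le_pow_left₀ (by linarith) h7 3
    _ ≤ _ := h1

lemma div_mono_den {c A B : ℝ} (hc : 0 ≤ c) (hA : 1 ≤ A) (hAB : A ≤ B) : c / B ^ 3 ≤ c / A ^ 3 := by
  apply div_le_div_of_nonneg_left hc (by positivity)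
  exact pow_le_pow_left₀ (by linarith) hAB 3

/-- monic units -/
theorem ru_monic : ∃ c : ℝ, 0 < c ∧ ∀ f : ℤ[X], Irreducible f → f.Monic → |f.coeff 0| = 1 →
    1 < MM f → ∀ N : ℕ, 0 < N →
    c / (1 + KN N f + f.natDegree / N) ^ 3 ≤ Real.log (MM f) := by
  obtain ⟨c1, hc1, hcm⟩ := field_main3
  obtain ⟨c2, hc2, hsm⟩ := small_N
  have hc12 : 0 < min c1 c2 := lt_min hc1 hc2
  refine ⟨min c1 c2, hc12, ?_⟩
  have ind : ∀ n : ℕ, ∀ f : ℤ[X], f.natDegree = n → Irreducible f → f.Monic → |f.coeff 0| = 1 →
      1 < MM f → ∀ N : ℕ, 0 < N →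
      min c1 c2 / (1 + KN N f + f.natDegree / N) ^ 3 ≤ Real.log (MM f) := by
    intro n
    induction n using Nat.strong_induction_on with
    | _ n ih =>
      intro f hfn hf hm hf0 hM N hN
      have hN0 : (0:ℝ) < N := by exact_mod_cast hN
      have hK0 := KN_nonneg N f
      by_cases hexp : ∃ q : ℕ, q.Prime ∧ ∃ g : ℤ[X], f = expand ℤ q g
      · obtain ⟨q, hq, g, hg⟩ := hexp
        subst hg
        have hgirr : Irreducible g := of_irreducible_expand hq.ne_zero hf
        have hgm : g.Monic := by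
          have h1 := hm
          rw [Monic, leadingCoeff_expand hq.pos] at h1
          exact h1
        have hMM : MM (expand ℤ q g) = MM g := MM_expand hq.pos g
        have hg0 : |g.coeff 0| = 1 := by
          rw [coeff_expand hq.pos, if_pos (dvd_zero q), Nat.zero_div] at hf0
          exact hf0
        have hg1 : g.natDegree ≠ 0 := natDegree_ne (by rw [← hMM]; exact hM) hgm
        have hgd : g.natDegree < n := by
          rw [← hfn, natDegree_expand]
          have := hq.two_le
          have h2 : 0 < g.natDegree := Nat.pos_of_ne_zero hg1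
          nlinarith
        have hgd0 : (0:ℝ) ≤ g.natDegree := Nat.cast_nonneg _
        have ihg := ih g.natDegree hgd g rfl hgirr hgm hg0 (by rw [← hMM]; exact hM)
        rw [hMM, natDegree_expand]
        by_cases hqN : q ∣ N
        · obtain ⟨N', rfl⟩ := hqN
          have hN' : 0 < N' := Nat.pos_of_ne_zero (by rintro rfl; rw [mul_zero] at hN; exact lt_irrefl _ hN)
          have h1 := ihg N' hN'
          rw [KN_expand_dvd hq.pos hN']
          have hq' : (q : ℝ) ≠ 0 := by exact_mod_cast hq.ne_zero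
          have e : ((g.natDegree * q : ℕ) : ℝ) / ((q * N' : ℕ) : ℝ) = g.natDegree / N' := by
            push_cast
            rw [mul_comm, mul_div_mul_left _ _ hq']
          rw [e]
          exact h1
        · have h1 := ihg N hN
          have hcop : q.Coprime N := (Nat.Prime.coprime_iff_not_dvd hq).mpr hqN
          rw [KN_expand_coprime hN hcop] at hK0 ⊢
          refine le_trans ?_ h1
          apply div_mono_den hc12.le
          · have : 0 ≤ (g.natDegree : ℝ) / N := by positivity
            linarith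
          · have h2 : (g.natDegree : ℝ) / N ≤ ((g.natDegree * q : ℕ) : ℝ) / N := by
              apply div_le_div_of_nonneg_right _ hN0.le
              exact_mod_cast Nat.le_mul_of_pos_right _ hq.pos
            linarith
      · push Not at hexp
        have hd : 0 ≤ (f.natDegree : ℝ) / N := by positivity
        rcases lt_or_ge N 512 with hlt | hge
        · have h1 := hsm f hf hM N hN hlt
          calc min c1 c2 / (1 + KN N f + f.natDegree / N) ^ 3
              ≤ min c1 c2 / (1 + f.natDegree / N) ^ 3 :=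
                div_mono_den hc12.le (by linarith) (by linarith)
            _ ≤ c2 / (1 + f.natDegree / N) ^ 3 :=
                div_le_div_of_nonneg_right (min_le_right _ _) (by positivity)
            _ ≤ _ := h1
        · obtain ⟨z, hz⟩ := exists_zero hM hm
          obtain ⟨hNF, hrep⟩ := exists_rep f hf hm z hz
          have h1 := rep_ru (K := IntermediateField.adjoin ℚ {z})
            (α := IntermediateField.AdjoinSimple.gen ℚ z) hcm hrep hf0 hM (by
              intro q hq hq2
              exact good_of_witness (hrep.ne_zero hf0) hrep.inj hq hq2 (hrep.witness hq (hexp q hq)))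
            hge
          refine le_trans ?_ h1
          exact div_le_div_of_nonneg_right (min_le_left _ _) (by positivity)
  intro f hf hm hf0 hM
  exact ind _ f rfl hf hm hf0 hM

/-- the general irreducible case -/
theorem ru_main : ∃ c : ℝ, 0 < c ∧ ∀ f : ℤ[X], Irreducible f → 1 < MM f → ∀ N : ℕ, 0 < N →
    c / (1 + f.natDegree / N + KN N f) ^ 3 ≤ Real.log (MM f) := by
  obtain ⟨c1, hc1, hc⟩ := ru_monic
  have hlog2 : 0 < Real.log 2 := Real.log_pos (by norm_num)
  set c := min c1 (Real.log 2) with hcdef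
  have hc0 : 0 < c := lt_min (by positivity) hlog2
  refine ⟨c, hc0, ?_⟩
  intro f hf hM N hN
  have hf0 : f ≠ 0 := hf.ne_zero
  have hN0 : (0:ℝ) < N := by exact_mod_cast hN
  have hK0 := KN_nonneg N f
  have hd : 0 ≤ (f.natDegree : ℝ) / N := by positivity
  have e0 : (1 + (f.natDegree : ℝ) / N + KN N f) = 1 + KN N f + f.natDegree / N := by ring
  rw [e0]
  set W : ℝ := 1 + KN N f + f.natDegree / N with hW
  have hW1 : 1 ≤ W := by linarith
  have hcmp : c / W ^ 3 ≤ c1 / W ^ 3 :=
    div_le_div_of_nonneg_right (min_le_left _ _) (by positivity)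
  by_cases hbig : 2 ≤ MM f
  · have h1 : c ≤ Real.log 2 := min_le_right _ _
    have h2 : Real.log 2 ≤ Real.log (MM f) := Real.log_le_log (by norm_num) hbig
    have h3 : c / W ^ 3 ≤ c := by
      apply div_le_self hc0.le
      exact one_le_pow₀ hW1
    linarith
  push Not at hbig
  have hlc : |f.leadingCoeff| = 1 := by
    have h1 : 1 ≤ |f.leadingCoeff| := Int.one_le_abs (leadingCoeff_ne_zero.mpr hf0)
    have h3 := leadingCoeff_le_MM f
    by_contra hne
    have h2 : 2 ≤ |f.leadingCoeff| := by omega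
    have h4 : (2:ℝ) ≤ |(f.leadingCoeff : ℝ)| := by exact_mod_cast h2
    linarith
  have hcc : |f.coeff 0| = 1 := by
    have h0 : f.coeff 0 ≠ 0 := by
      intro h
      have hdvd : (X : ℤ[X]) ∣ f := X_dvd_iff.mpr h
      obtain ⟨g, hg⟩ := hdvd
      rcases hf.isUnit_or_isUnit hg with h1 | h1
      · exact Polynomial.not_isUnit_X h1
      · have h2 : MM f = 1 := by
          rw [hg, MM_mul]
          obtain ⟨r, hr, hrg⟩ := Polynomial.isUnit_iff.mp h1
          have h4 : MM g = 1 := by
            rw [← hrg, MM, Polynomial.map_C, mahlerMeasure_const, eq_intCast, Complex.norm_intCast]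
            rcases Int.isUnit_iff.mp hr with h5 | h5 <;> simp [h5]
          rw [MM_X, h4, one_mul]
        linarith
    have h1 : 1 ≤ |f.coeff 0| := Int.one_le_abs h0
    have h3 := coeff_zero_le_MM f
    by_contra hne
    have h2 : 2 ≤ |f.coeff 0| := by omega
    have h4 : (2:ℝ) ≤ |(f.coeff 0 : ℝ)| := by exact_mod_cast h2
    linarith
  rcases (abs_eq (by norm_num : (0:ℤ) ≤ 1)).mp hlc with h | h
  · exact hcmp.trans (hc f hf h hcc hM N hN)
  · have h1 := hc (-f) (by simpa using (irreducible_units_mul (-1 : ℤ[X]ˣ)).mpr hf) (by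
        rw [Monic, leadingCoeff_neg, h]; norm_num) (by rw [coeff_neg, abs_neg]; exact hcc)
      (by rw [MM_neg]; exact hM) N hN
    rw [MM_neg, KN_neg, natDegree_neg] at h1
    exact hcmp.trans h1

end Pool.Agent.H448.RU
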